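import Mathlib

/-!
# Random blocks

`block`: for finitely many subsets `F w` of `Fin n` of average density at least `p` (with
`p n` at least `2 m`) there are `N` disjoint blocks of `m` elements such that the number of
pairs (index, block inside `F w`) is at least the expected order `N |W| (p/2)^m`.
-/

namespace Pool.Agent.Lib.MPffb1b1

open Finset

lemma card_fiber_const {n m : ℕ} (e0 e e' : Fin m ↪ Fin n) :
    (univ.filter (fun σ : Equiv.Perm (Fin n) => ∀ y, σ (e0 y) = e y)).card
      = (univ.filter (fun σ : Equiv.Perm (Fin n) => ∀ y, σ (e0 y) = e' y)).card := by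
  have := Equiv.Perm.isMultiplyPretransitive (Fin n) m
  obtain ⟨g, hg⟩ := MulAction.exists_smul_eq (Equiv.Perm (Fin n)) e e'
  have hg' : ∀ y, g (e y) = e' y := by
    intro y
    have := DFunLike.congr_fun hg y
    simpa using this
  refine Finset.card_bij' (fun σ _ => g * σ) (fun σ _ => g⁻¹ * σ) ?_ ?_ ?_ ?_
  · intro σ hσ
    simp only [mem_filter, mem_univ, true_and] at hσ ⊢
    intro y
    rw [Equiv.Perm.mul_apply, hσ y, hg' y]
  · intro σ hσ
    simp only [mem_filter, mem_univ, true_and] at hσ ⊢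
    intro y
    rw [Equiv.Perm.mul_apply, hσ y, ← hg' y]
    exact g.symm_apply_apply (e y)
  · intro σ _; simp
  · intro σ _; simp

lemma card_emb_in {n m : ℕ} (D : Finset (Fin n)) :
    (univ.filter (fun e : Fin m ↪ Fin n => ∀ y, e y ∈ D)).card = D.card.descFactorial m := by
  have h := @Fintype.card_embedding_eq (Fin m) D _ _ _
  rw [Fintype.card_coe, Fintype.card_fin] at h
  rw [← h, ← Fintype.card_subtype]
  refine Fintype.card_congr ⟨fun e => ⟨fun y => ⟨e.1 y, e.2 y⟩, fun a b hab => ?_⟩,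
    fun e => ⟨⟨fun y => (e y : Fin n), fun a b hab => ?_⟩, fun y => (e y).2⟩, ?_, ?_⟩
  · exact e.1.injective (congrArg Subtype.val hab)
  · exact e.injective (Subtype.ext hab)
  · intro e; rfl
  · intro e; rfl

lemma card_perm_in {n m : ℕ} (e0 : Fin m ↪ Fin n) (D : Finset (Fin n)) :
    (univ.filter (fun σ : Equiv.Perm (Fin n) => ∀ y, σ (e0 y) ∈ D)).card * n.descFactorial m
      = Fintype.card (Equiv.Perm (Fin n)) * D.card.descFactorial m := by
  classical
  set K := (univ.filter (fun σ : Equiv.Perm (Fin n) => ∀ y, σ (e0 y) = e0 y)).card with hK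
  have key : ∀ D : Finset (Fin n),
      (univ.filter (fun σ : Equiv.Perm (Fin n) => ∀ y, σ (e0 y) ∈ D)).card
        = K * D.card.descFactorial m := by
    intro D
    have hmaps : Set.MapsTo (fun σ : Equiv.Perm (Fin n) => e0.trans σ.toEmbedding)
        ↑(univ.filter (fun σ : Equiv.Perm (Fin n) => ∀ y, σ (e0 y) ∈ D))
        ↑(univ.filter (fun e : Fin m ↪ Fin n => ∀ y, e y ∈ D)) := by
      intro σ hσ
      simp only [Finset.mem_coe, mem_filter, mem_univ, true_and] at hσ ⊢
      intro y
      exact hσ y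
    rw [Finset.card_eq_sum_card_fiberwise hmaps]
    have hc : ∀ e ∈ (univ.filter (fun e : Fin m ↪ Fin n => ∀ y, e y ∈ D)),
        ((univ.filter (fun σ : Equiv.Perm (Fin n) => ∀ y, σ (e0 y) ∈ D)).filter
          (fun σ => e0.trans σ.toEmbedding = e)).card = K := by
      intro e he
      simp only [mem_filter, mem_univ, true_and] at he
      rw [hK, ← card_fiber_const e0 e e0]
      congr 1
      ext σ
      simp only [mem_filter, mem_univ, true_and]
      constructor
      · rintro ⟨_, h2⟩ y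
        have := DFunLike.congr_fun h2 y
        simpa using this
      · intro h
        refine ⟨fun y => by rw [h y]; exact he y, ?_⟩
        ext y
        simp [h y]
    rw [Finset.sum_congr rfl hc, Finset.sum_const, card_emb_in, smul_eq_mul, mul_comm]
  have hu := key univ
  have huniv : (univ.filter (fun σ : Equiv.Perm (Fin n) => ∀ y, σ (e0 y) ∈ (univ : Finset (Fin n))))
      = univ := by
    ext σ; simp
  rw [huniv, Finset.card_univ, Finset.card_univ, Fintype.card_fin] at hu
  rw [key D, hu]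
  ring

lemma block_nat {W : Type*} [Fintype W] [DecidableEq W] {n m N : ℕ}
    (hN : N * m ≤ n) (F : W → Finset (Fin n)) :
    ∃ τ : Fin N → Fin m → Fin n, Function.Injective (fun q : Fin N × Fin m => τ q.1 q.2) ∧
      N * ∑ w, (F w).card.descFactorial m
        ≤ (univ.filter (fun q : W × Fin N => ∀ y, τ q.2 y ∈ F q.1)).card * n.descFactorial m := by
  classical
  let ι : Fin N × Fin m ↪ Fin n :=
    (finProdFinEquiv.toEmbedding).trans (Fin.castLEEmb hN)
  let eu : Fin N → (Fin m ↪ Fin n) := fun u =>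
    ⟨fun y => ι (u, y), fun a b hab => by
      have := ι.injective hab
      exact (Prod.mk.inj this).2⟩
  have hsum : ∑ σ : Equiv.Perm (Fin n), N * ∑ w, (F w).card.descFactorial m
      = ∑ σ : Equiv.Perm (Fin n),
        (univ.filter (fun q : W × Fin N => ∀ y, σ (eu q.2 y) ∈ F q.1)).card
          * n.descFactorial m := by
    have hL : ∑ σ : Equiv.Perm (Fin n),
        (univ.filter (fun q : W × Fin N => ∀ y, σ (eu q.2 y) ∈ F q.1)).card
          * n.descFactorial m = (∑ σ : Equiv.Perm (Fin n),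
        (univ.filter (fun q : W × Fin N => ∀ y, σ (eu q.2 y) ∈ F q.1)).card)
          * n.descFactorial m := by rw [Finset.sum_mul]
    rw [hL]
    have h1 : ∑ σ : Equiv.Perm (Fin n),
        (univ.filter (fun q : W × Fin N => ∀ y, σ (eu q.2 y) ∈ F q.1)).card
        = ∑ q : W × Fin N,
          (univ.filter (fun σ : Equiv.Perm (Fin n) => ∀ y, σ (eu q.2 y) ∈ F q.1)).card := by
      simp only [Finset.card_filter]
      rw [Finset.sum_comm]
    rw [h1, Finset.sum_mul]
    have h2 : ∀ q ∈ (univ : Finset (W × Fin N)),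
        (univ.filter (fun σ : Equiv.Perm (Fin n) => ∀ y, σ (eu q.2 y) ∈ F q.1)).card
          * n.descFactorial m
        = Fintype.card (Equiv.Perm (Fin n)) * (F q.1).card.descFactorial m :=
      fun q _ => card_perm_in (eu q.2) (F q.1)
    rw [Finset.sum_congr rfl h2]
    rw [← Finset.mul_sum, Fintype.sum_prod_type]
    simp only [Finset.sum_const, Finset.card_univ, Fintype.card_fin, smul_eq_mul]
    rw [Finset.mul_sum, Finset.mul_sum]
  obtain ⟨σ, _, hσ⟩ := Finset.exists_le_of_sum_le (Finset.univ_nonempty) (le_of_eq hsum)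
  refine ⟨fun u y => σ (eu u y), ?_, hσ⟩
  intro q q' h
  have h1 := σ.injective h
  have h2 := ι.injective h1
  exact Prod.ext (Prod.mk.inj h2).1 (Prod.mk.inj h2).2

lemma block {W : Type*} [Fintype W] [DecidableEq W] {n m N : ℕ} (hm : 1 ≤ m) (hn : 1 ≤ n)
    (hN : N * m ≤ n) (F : W → Finset (Fin n)) (p : ℝ)
    (hF : p * n * Fintype.card W ≤ ∑ w, ((F w).card : ℝ)) (hp2 : 2 * (m : ℝ) ≤ p * n) :
    ∃ τ : Fin N → Fin m → Fin n, Function.Injective (fun q : Fin N × Fin m => τ q.1 q.2) ∧
      (N : ℝ) * Fintype.card W * (p / 2) ^ m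
        ≤ ((univ.filter (fun q : W × Fin N => ∀ y, τ q.2 y ∈ F q.1)).card : ℝ) := by
  obtain ⟨τ, hinj, hτ⟩ := block_nat hN F
  refine ⟨τ, hinj, ?_⟩
  have hn' : (0 : ℝ) < n := by exact_mod_cast hn
  rcases Nat.eq_zero_or_pos (Fintype.card W) with hW | hW
  · rw [hW]; simp
  have hW' : (0 : ℝ) < Fintype.card W := by exact_mod_cast hW
  set x : W → ℝ := fun w => max (((F w).card : ℝ) - m) 0 with hx
  have hx0 : ∀ w ∈ (univ : Finset W), 0 ≤ x w := fun w _ => le_max_right _ _
  have hdf : ∀ w, x w ^ m ≤ ((F w).card.descFactorial m : ℝ) := by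
    intro w
    have h1 := Nat.pow_sub_le_descFactorial (F w).card m
    have h2 : (((F w).card + 1 - m : ℕ) : ℝ) ^ m ≤ ((F w).card.descFactorial m : ℝ) := by
      exact_mod_cast h1
    refine le_trans (pow_le_pow_left₀ (hx0 w (mem_univ w)) ?_ m) h2
    rw [hx]
    refine max_le ?_ (Nat.cast_nonneg _)
    rcases Nat.lt_or_ge ((F w).card) m with h | h
    · have : ((F w).card : ℝ) - m ≤ 0 := by
        have : ((F w).card : ℝ) ≤ m := by exact_mod_cast h.le
        linarith
      exact this.trans (Nat.cast_nonneg _)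
    · have : (((F w).card + 1 - m : ℕ) : ℝ) = (F w).card + 1 - m := by
        rw [Nat.cast_sub (by omega)]; push_cast; ring
      rw [this]; linarith
  have hsx : p * n / 2 * Fintype.card W ≤ ∑ w, x w := by
    have h1 : ∑ w, (((F w).card : ℝ) - m) ≤ ∑ w, x w :=
      Finset.sum_le_sum (fun w _ => le_max_left _ _)
    rw [Finset.sum_sub_distrib, Finset.sum_const, Finset.card_univ, nsmul_eq_mul] at h1
    nlinarith
  obtain ⟨m', rfl⟩ : ∃ m', m = m' + 1 := ⟨m - 1, by omega⟩
  have hpow := pow_sum_div_card_le_sum_pow (s := (univ : Finset W)) (f := x) hx0 m'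
  rw [Finset.card_univ] at hpow
  have hpn : 0 ≤ p * n / 2 := by
    have : (0 : ℝ) ≤ ((m' + 1 : ℕ) : ℝ) := Nat.cast_nonneg _
    linarith
  have h3 : (Fintype.card W : ℝ) * (p * n / 2) ^ (m' + 1)
      ≤ ∑ w, ((F w).card.descFactorial (m' + 1) : ℝ) := by
    refine le_trans ?_ (le_trans hpow (Finset.sum_le_sum (fun w _ => hdf w)))
    rw [le_div_iff₀ (pow_pos hW' _)]
    have := pow_le_pow_left₀ (mul_nonneg hpn hW'.le) hsx (m' + 1)
    calc (Fintype.card W : ℝ) * (p * n / 2) ^ (m' + 1) * (Fintype.card W : ℝ) ^ m'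
        = (p * n / 2 * Fintype.card W) ^ (m' + 1) := by ring
      _ ≤ _ := this
  have h4 : (N : ℝ) * ∑ w, ((F w).card.descFactorial (m' + 1) : ℝ)
      ≤ ((univ.filter (fun q : W × Fin N => ∀ y, τ q.2 y ∈ F q.1)).card : ℝ)
        * (n : ℝ) ^ (m' + 1) := by
    have h5 : ((N * ∑ w, (F w).card.descFactorial (m' + 1) : ℕ) : ℝ)
      ≤ (((univ.filter (fun q : W × Fin N => ∀ y, τ q.2 y ∈ F q.1)).card
        * n ^ (m' + 1) : ℕ) : ℝ) := by
      exact_mod_cast hτ.trans (Nat.mul_le_mul_left _ (Nat.descFactorial_le_pow n (m' + 1)))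
    push_cast at h5
    exact h5
  have hnp : (0 : ℝ) < (n : ℝ) ^ (m' + 1) := pow_pos hn' _
  rw [← mul_le_mul_iff_left₀ hnp]
  refine le_trans ?_ h4
  calc (N : ℝ) * Fintype.card W * (p / 2) ^ (m' + 1) * (n : ℝ) ^ (m' + 1)
      = N * (Fintype.card W * (p * n / 2) ^ (m' + 1)) := by
        rw [show p * n / 2 = p / 2 * n by ring, mul_pow]; ring
    _ ≤ _ := mul_le_mul_of_nonneg_left h3 (Nat.cast_nonneg _)

end Pool.Agent.Lib.MPffb1b1
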