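import Pool.Agent.Lib.MP_ffb1b1_co.Main

/-!
# Consequences of the scaling inequality
-/

namespace Pool.Agent.Lib.MPffb1b1

open Finset

theorem forces_antitone {K k r : ℕ} {ε : ℝ} (hKk : K ≤ k) (h : Forces k r ε) :
    Forces K r ε := by
  classical
  obtain ⟨c, hc, H⟩ := h
  refine ⟨c, hc, fun n hn G hG hcard => ?_⟩
  obtain ⟨A, hA, hdis, hAE⟩ := H n hn G hG hcard
  have hex : ∀ i, ∃ B, B ⊆ A i ∧ B.card = K := fun i =>
    Finset.exists_subset_card_eq (by rw [hA i]; exact hKk)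
  choose B hB hBc using hex
  exact ⟨B, hBc, fun i j hij => (hdis i j hij).mono (hB i) (hB j),
    fun f hf => hAE f (fun i => hB i (hf i))⟩

theorem epsStar_antitone {K k r : ℕ} (hK : 2 ≤ K) (hr : 1 ≤ r) (hKk : K ≤ k) :
    epsStar k r ≤ epsStar K r := by
  apply Real.sSup_le
  · intro ε hε
    exact le_csSup (bddAbove_forces hK hr) ⟨hε.1, forces_antitone hKk hε.2⟩
  · exact Real.sSup_nonneg (fun x hx => hx.1.le)

theorem lambda_general {k m K r s : ℕ} (hk : 2 ≤ k) (hm : 1 ≤ m) (hK : 2 ≤ K) (hKk : K ≤ k * m)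
    (hr : 1 ≤ r) (hrs : r ≤ s) :
    (k : ℝ) ^ r * epsStar k r ≤ ((k * m : ℕ) : ℝ) ^ s * epsStar K s := by
  refine (lambda_mono hk hm hr hrs).trans ?_
  have := epsStar_antitone hK (hr.trans hrs) hKk
  gcongr

theorem erdos_mono {k r : ℕ} (hk : 2 ≤ k) (hr : 1 ≤ r) :
    1 ≤ (k : ℝ) ^ (r - 1) * epsStar k r ∧
      (k : ℝ) ^ (r - 1) * epsStar k r ≤ (k : ℝ) ^ r * epsStar k (r + 1) := by
  have hkR : (0 : ℝ) < k := by
    have : 0 < k := by omega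
    exact_mod_cast this
  have h1 := lambda_mono (s := r) hk le_rfl le_rfl hr
  have h2 := lambda_mono (s := r + 1) hk le_rfl hr (Nat.le_succ r)
  rw [mul_one, epsStar_one hk, pow_one, mul_one] at h1
  rw [mul_one] at h2
  have h3 : (k : ℝ) ^ r = k * (k : ℝ) ^ (r - 1) := by
    rw [← pow_succ']
    congr 1
    omega
  constructor
  · rw [h3] at h1
    by_contra hlt
    push Not at hlt
    nlinarith
  · rw [h3, pow_succ' (k : ℝ) r, mul_assoc, mul_assoc] at h2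
    exact le_of_mul_le_mul_left h2 hkR

theorem tight_descends {K s : ℕ} (hK : 2 ≤ K) (hs : 1 ≤ s)
    (h : epsStar K s = 1 / (K : ℝ) ^ (s - 1)) {k r : ℕ} (hk : 2 ≤ k) (hkK : k ∣ K)
    (hr : 1 ≤ r) (hrs : r ≤ s) : epsStar k r ≤ K / (k : ℝ) ^ r := by
  obtain ⟨m, rfl⟩ := hkK
  have hm : 1 ≤ m := by
    rcases Nat.eq_zero_or_pos m with rfl | h
    · simp at hK
    · exact h
  have h1 := lambda_mono hk hm hr hrs
  have hKR : (0 : ℝ) < ((k * m : ℕ) : ℝ) := by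
    have : 0 < k * m := by omega
    exact_mod_cast this
  have hkR : (0 : ℝ) < k := by
    have : 0 < k := by omega
    exact_mod_cast this
  have h3 : ((k * m : ℕ) : ℝ) ^ s = ((k * m : ℕ) : ℝ) * ((k * m : ℕ) : ℝ) ^ (s - 1) := by
    rw [← pow_succ']
    congr 1
    omega
  rw [h, h3] at h1
  rw [le_div_iff₀ (by positivity)]
  have h4 : ((k * m : ℕ) : ℝ) * ((k * m : ℕ) : ℝ) ^ (s - 1) * (1 / ((k * m : ℕ) : ℝ) ^ (s - 1))
      = ((k * m : ℕ) : ℝ) := by field_simp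
  rw [h4] at h1
  linarith

theorem random_tight {k r : ℕ} (hk : 2 ≤ k) (hr : 2 ≤ r)
    (h : epsStar k r = r * ((k : ℝ) - 1) / ((k : ℝ) ^ r - 1)) {K s : ℕ} (hkK : k ∣ K)
    (hK : 1 ≤ K) (hKr : K ≤ r * (k - 1)) (hrs : r ≤ s) :
    1 / (K : ℝ) ^ (s - 1) < epsStar K s := by
  obtain ⟨m, rfl⟩ := hkK
  have hm : 1 ≤ m := by
    rcases Nat.eq_zero_or_pos m with rfl | h
    · simp at hK
    · exact h
  have h1 := lambda_mono hk hm (by omega) hrs
  have hKR : (0 : ℝ) < ((k * m : ℕ) : ℝ) := by exact_mod_cast hK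
  have hk2 : (2 : ℝ) ≤ k := by exact_mod_cast hk
  have h3 : ((k * m : ℕ) : ℝ) ^ s = ((k * m : ℕ) : ℝ) * ((k * m : ℕ) : ℝ) ^ (s - 1) := by
    rw [← pow_succ']
    congr 1
    omega
  have hKr' : ((k * m : ℕ) : ℝ) ≤ r * ((k : ℝ) - 1) := by
    have h5 : ((k * m : ℕ) : ℝ) ≤ ((r * (k - 1) : ℕ) : ℝ) := by exact_mod_cast hKr
    rw [Nat.cast_mul r (k - 1), Nat.cast_sub (by omega : 1 ≤ k)] at h5
    simpa using h5
  have hkr1 : (1 : ℝ) < (k : ℝ) ^ r := one_lt_pow₀ (by linarith) (by omega)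
  have hlam : ((k * m : ℕ) : ℝ) < (k : ℝ) ^ r * epsStar k r := by
    rw [h, ← mul_div_assoc, lt_div_iff₀ (by linarith)]
    have hpos : 0 < r * ((k : ℝ) - 1) := lt_of_lt_of_le hKR hKr'
    nlinarith
  rw [div_lt_iff₀ (by positivity)]
  have h6 : ((k * m : ℕ) : ℝ) * 1
      < ((k * m : ℕ) : ℝ) * (epsStar (k * m) s * ((k * m : ℕ) : ℝ) ^ (s - 1)) := by
    calc ((k * m : ℕ) : ℝ) * 1 < (k : ℝ) ^ r * epsStar k r := by rw [mul_one]; exact hlam
      _ ≤ ((k * m : ℕ) : ℝ) ^ s * epsStar (k * m) s := h1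
      _ = ((k * m : ℕ) : ℝ) * (epsStar (k * m) s * ((k * m : ℕ) : ℝ) ^ (s - 1)) := by
          rw [h3]; ring
  exact lt_of_mul_lt_mul_left h6 hKR.le

end Pool.Agent.Lib.MPffb1b1
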