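import Pool.Agent.Lib.MP_ffb1b1_co.Lift

/-!
# r-graphs and product hypergraphs
-/

namespace Pool.Agent.Lib.MPffb1b1

open Finset

/-- The family `H` of sets of vertices contains a copy of `K_r(k, .., k)`: there are `r`
pairwise disjoint classes of `k` vertices such that every set with one vertex from each class
is in `H`. -/
def Contains (k r : ℕ) {n : ℕ} (H : Finset (Finset (Fin n))) : Prop :=
  ∃ A : Fin r → Finset (Fin n), (∀ i, (A i).card = k) ∧
    (∀ i j, i ≠ j → Disjoint (A i) (A j)) ∧
    ∀ f : Fin r → Fin n, (∀ i, f i ∈ A i) → univ.image f ∈ H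

/-- The exponent `ε` forces `K_r(k, .., k)`: there is a constant `c` such that for every `n`
every `r`-graph on `n` vertices with at least `c n^(r-ε)` edges contains `K_r(k, .., k)`. -/
def Forces (k r : ℕ) (ε : ℝ) : Prop :=
  ∃ c : ℝ, 0 < c ∧ ∀ n : ℕ, 1 ≤ n → ∀ H : Finset (Finset (Fin n)), (∀ e ∈ H, e.card = r) →
    c * (n : ℝ) ^ ((r : ℝ) - ε) ≤ H.card → Contains k r H

/-- The supremum `ε*_{k,r}` of the problem. -/
noncomputable def epsStar (k r : ℕ) : ℝ := sSup {ε : ℝ | 0 < ε ∧ Forces k r ε}

theorem forces_of_goodR {k r : ℕ} {ε : ℝ} (hk : 1 ≤ k) (h : GoodR (fun _ : Fin r => k) ε) :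
    Forces k r ε := by
  classical
  obtain ⟨c, hc, H⟩ := h 1
  refine ⟨c, hc, ?_⟩
  intro n hn G hG hcard
  set Q : Finset (Fin r → Fin n) := univ.filter (fun f => univ.image f ∈ G) with hQ
  have hinj : Function.Injective (fun (f : Fin r → Fin n) (j : Fin r) => ((f j : Fin n) : ℕ)) := by
    intro f g hfg
    funext j
    exact Fin.ext (congrFun hfg j)
  have hGQ : G.card ≤ Q.card := by
    have h1 : G ⊆ Q.image (fun f => univ.image f) := by
      intro e he
      let φ := e.equivFinOfCardEq (hG e he)
      have h2 : univ.image (fun i => ((φ.symm i : e) : Fin n)) = e := by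
        ext x
        simp only [mem_image, mem_univ, true_and]
        constructor
        · rintro ⟨i, rfl⟩
          exact (φ.symm i).2
        · intro hx
          exact ⟨φ ⟨x, hx⟩, by simp⟩
      refine mem_image.2 ⟨fun i => ((φ.symm i : e) : Fin n), ?_, h2⟩
      rw [hQ, mem_filter]
      exact ⟨mem_univ _, by rw [h2]; exact he⟩
    exact (Finset.card_le_card h1).trans Finset.card_image_le
  have hbox : HasBox (Q.image (fun (f : Fin r → Fin n) (j : Fin r) => ((f j : Fin n) : ℕ)))
      (fun _ : Fin r => k) := by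
    refine H n hn (fun _ => n) (fun j => ⟨le_rfl, by omega⟩) _ ?_ ?_
    · intro f hf j
      obtain ⟨g, hg, rfl⟩ := mem_image.1 hf
      exact (g j).2
    · rw [Finset.card_image_of_injective _ hinj]
      refine hcard.trans ?_
      exact_mod_cast hGQ
  obtain ⟨A, hA, hAE⟩ := hbox
  have hne : ∀ j, (A j).Nonempty := fun j => by
    rw [← Finset.card_pos, hA j]; exact hk
  choose z hz using hne
  have hlt : ∀ i, ∀ u ∈ A i, u < n := by
    intro i u hu
    have h1 : Function.update z i u
        ∈ Q.image (fun (f : Fin r → Fin n) (j : Fin r) => ((f j : Fin n) : ℕ)) := by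
      apply hAE
      intro j
      rcases eq_or_ne j i with rfl | hj
      · rw [Function.update_self]; exact hu
      · rw [Function.update_of_ne hj]; exact hz j
    obtain ⟨g, hg, hg2⟩ := mem_image.1 h1
    have h2 := congrFun hg2 i
    rw [Function.update_self] at h2
    rw [← h2]
    exact (g i).2
  have hgood : ∀ f : Fin r → Fin n, (∀ i, (f i : ℕ) ∈ A i) → univ.image f ∈ G := by
    intro f hf
    have h1 := hAE (fun j => (f j : ℕ)) hf
    obtain ⟨g, hg, hg2⟩ := mem_image.1 h1
    have h2 : g = f := hinj hg2
    rw [← h2]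
    exact (mem_filter.1 hg).2
  refine ⟨fun i => univ.filter (fun x : Fin n => (x : ℕ) ∈ A i), ?_, ?_, ?_⟩
  · intro i
    refine Eq.trans ?_ (hA i)
    refine Finset.card_bij (fun x _ => (x : ℕ)) ?_ ?_ ?_
    · intro x hx
      exact (mem_filter.1 hx).2
    · intro x _ y _ hxy
      exact Fin.ext hxy
    · intro u hu
      exact ⟨⟨u, hlt i u hu⟩, mem_filter.2 ⟨mem_univ _, hu⟩, rfl⟩
  · intro i j hij
    rw [Finset.disjoint_left]
    intro x hx hx'
    have hxi := (mem_filter.1 hx).2
    have hxj := (mem_filter.1 hx').2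
    set f : Fin r → Fin n := fun l => if l = i ∨ l = j then x else ⟨z l, hlt l _ (hz l)⟩ with hf
    have h1 : univ.image f ∈ G := by
      apply hgood
      intro l
      rw [hf]
      dsimp only
      split_ifs with h
      · rcases h with rfl | rfl
        · exact hxi
        · exact hxj
      · exact hz l
    have h2 := hG _ h1
    have h3 : (univ.image f).card = (univ : Finset (Fin r)).card := by
      rw [h2, Finset.card_univ, Fintype.card_fin]
    have h4 := Finset.card_image_iff.1 h3
    apply hij
    apply h4 (by simp) (by simp)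
    simp [hf]
  · intro f hf
    apply hgood
    intro i
    exact (mem_filter.1 (hf i)).2

theorem goodR_of_forces {k r : ℕ} {ε : ℝ} (hk : 1 ≤ k) (hr : 1 ≤ r) (h : Forces k r ε) :
    GoodR (fun _ : Fin r => k) ε := by
  classical
  intro L
  obtain ⟨c, hc, H⟩ := h
  rcases Nat.eq_zero_or_pos L with rfl | hL
  · refine ⟨1, one_pos, fun n hn s hs => ?_⟩
    have := hs ⟨0, hr⟩
    omega
  have hrL : (0 : ℝ) < (r : ℝ) * L := by
    have h1 : (0 : ℝ) < r := by exact_mod_cast hr
    have h2 : (0 : ℝ) < L := by exact_mod_cast hL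
    positivity
  refine ⟨c * ((r : ℝ) * L) ^ ((r : ℝ) - ε), by positivity, ?_⟩
  intro n hn s hs E hE hcard
  have hn0 : (0 : ℝ) < n := by
    have : 0 < n := by omega
    exact_mod_cast this
  have hV : 0 < L * n := Nat.mul_pos hL (by omega)
  let e : Fin r × Fin (L * n) ≃ Fin (r * (L * n)) := finProdFinEquiv
  let code : Fin r → ℕ → Fin (r * (L * n)) := fun j v => e (j, ⟨v % (L * n), Nat.mod_lt _ hV⟩)
  let part : Fin (r * (L * n)) → Fin r := fun x => (e.symm x).1
  let val : Fin (r * (L * n)) → ℕ := fun x => ((e.symm x).2 : ℕ)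
  have hpc : ∀ j v, part (code j v) = j := by
    intro j v; simp [part, code]
  have hvc : ∀ j v, v < L * n → val (code j v) = v := by
    intro j v hv; simp [val, code, Nat.mod_eq_of_lt hv]
  have hpv : ∀ x y, part x = part y → val x = val y → x = y := by
    intro x y h1 h2
    apply e.symm.injective
    exact Prod.ext h1 (Fin.ext h2)
  have hEV : ∀ f ∈ E, ∀ j, f j < L * n := fun f hf j => lt_of_lt_of_le (hE f hf j) (hs j).2
  let edge : (Fin r → ℕ) → Finset (Fin (r * (L * n))) := fun f => univ.image (fun j => code j (f j))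
  have hcodeinj : ∀ f : Fin r → ℕ, Function.Injective (fun j => code j (f j)) := by
    intro f j j' h
    have h' : code j (f j) = code j' (f j') := h
    have := congrArg part h'
    rwa [hpc, hpc] at this
  have hmem : ∀ f : Fin r → ℕ, ∀ x ∈ edge f, x = code (part x) (f (part x)) := by
    intro f x hx
    obtain ⟨j, _, rfl⟩ := mem_image.1 hx
    rw [hpc]
  have hedgeinj : Set.InjOn edge ↑E := by
    intro f hf g hg hfg
    funext j
    have h1 : code j (f j) ∈ edge g := by
      rw [← hfg]; exact mem_image_of_mem _ (mem_univ j)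
    have h2 := hmem g _ h1
    rw [hpc] at h2
    have h3 := congrArg val h2
    rwa [hvc _ _ (hEV f hf j), hvc _ _ (hEV g hg j)] at h3
  have hcon : Contains k r (E.image edge) := by
    refine H (r * (L * n)) (Nat.mul_pos hr hV) _ ?_ ?_
    · intro x hx
      obtain ⟨f, hf, rfl⟩ := mem_image.1 hx
      show (univ.image (fun j => code j (f j))).card = r
      rw [Finset.card_image_of_injective _ (hcodeinj f), Finset.card_univ, Fintype.card_fin]
    · rw [Finset.card_image_of_injOn hedgeinj]
      refine le_trans (le_of_eq ?_) hcard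
      push_cast
      rw [← mul_assoc (r : ℝ) L n, Real.mul_rpow hrL.le hn0.le]
      ring
  obtain ⟨A, hA, _, hAE⟩ := hcon
  have hne : ∀ j, (A j).Nonempty := fun j => by
    rw [← Finset.card_pos, hA j]; exact hk
  choose z hz using hne
  have hsurj : ∀ f : Fin r → Fin (r * (L * n)), (∀ i, f i ∈ A i) →
      Function.Bijective (fun i => part (f i)) := by
    intro f hf
    rw [← Finite.surjective_iff_bijective]
    intro j
    obtain ⟨g, hg, hg2⟩ := mem_image.1 (hAE f hf)
    have h1 : code j (g j) ∈ univ.image f := by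
      rw [← hg2]; exact mem_image_of_mem _ (mem_univ j)
    obtain ⟨i, _, hi⟩ := mem_image.1 h1
    exact ⟨i, by show part (f i) = j; rw [hi, hpc]⟩
  have hconst : ∀ i, ∀ x ∈ A i, part x = part (z i) := by
    intro i x hx
    by_contra hne
    have hb1 := hsurj z hz
    have hb2 := hsurj (Function.update z i x) (by
      intro j
      rcases eq_or_ne j i with rfl | hj
      · rw [Function.update_self]; exact hx
      · rw [Function.update_of_ne hj]; exact hz j)
    obtain ⟨j, hj⟩ := hb1.2 (part x)
    have hj' : part (z j) = part x := hj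
    have hji : j ≠ i := by
      rintro rfl
      exact hne hj'.symm
    apply hji
    apply hb2.1
    show part (Function.update z i x j) = part (Function.update z i x i)
    rw [Function.update_of_ne hji, Function.update_self, hj']
  let π : Fin r ≃ Fin r := Equiv.ofBijective _ (hsurj z hz)
  have hπ : ∀ i, π i = part (z i) := fun i => rfl
  refine ⟨fun j => (A (π.symm j)).image val, ?_, ?_⟩
  · intro j
    rw [Finset.card_image_of_injOn, hA]
    intro x hx y hy hxy
    exact hpv x y (by rw [hconst _ x hx, hconst _ y hy]) hxy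
  · intro f hf
    have hex : ∀ j, ∃ x, x ∈ A (π.symm j) ∧ val x = f j := by
      intro j
      obtain ⟨x, hx, hx2⟩ := mem_image.1 (hf j)
      exact ⟨x, hx, hx2⟩
    choose x hx hx2 using hex
    have hpx : ∀ j, part (x j) = j := by
      intro j
      rw [hconst _ _ (hx j), ← hπ, Equiv.apply_symm_apply]
    have h1 := hAE (fun i => x (π i)) (fun i => by
      have := hx (π i)
      rwa [Equiv.symm_apply_apply] at this)
    obtain ⟨g, hg, hg2⟩ := mem_image.1 h1
    have hgf : f = g := by
      funext j
      have h2 : x j ∈ edge g := by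
        rw [hg2]
        refine mem_image.2 ⟨π.symm j, mem_univ _, ?_⟩
        rw [Equiv.apply_symm_apply]
      have h3 := hmem g _ h2
      rw [hpx] at h3
      rw [← hx2 j, h3, hvc _ _ (hEV g hg j)]
    rw [hgf]
    exact hg

end Pool.Agent.Lib.MPffb1b1
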