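import Pool.Agent.Lib.MP_ffb1b1_co.Scale

/-!
# One more class, and scaling of all sides
-/

namespace Pool.Agent.Lib.MPffb1b1

open Finset

theorem lift {r : ℕ} {b : Fin r → ℕ} {ε : ℝ} (h : GoodR b ε) :
    GoodR (Fin.cons 1 b : Fin (r + 1) → ℕ) ε := by
  classical
  intro L
  obtain ⟨c', hc', H⟩ := h L
  refine ⟨(L + 1) * c', by positivity, ?_⟩
  intro n hn s hs E hE hcard
  have hn0 : (0 : ℝ) < n := by
    have : 0 < n := by omega
    exact_mod_cast this
  let G : ℕ → Finset (Fin (r + 1) → ℕ) := fun x => E.filter (fun f => f 0 = x)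
  have hfib : E.card = ∑ x ∈ range (s 0), (G x).card := by
    apply Finset.card_eq_sum_card_fiberwise
    intro f hf
    exact Finset.mem_coe.2 (mem_range.2 (hE f hf 0))
  have hex : ∃ x ∈ range (s 0), c' * (n : ℝ) ^ ((r : ℝ) - ε) ≤ (G x).card := by
    by_contra hno
    push Not at hno
    have h0 : 0 < s 0 := lt_of_lt_of_le (by omega) (hs 0).1
    have h1 : (E.card : ℝ) < (s 0 : ℝ) * (c' * (n : ℝ) ^ ((r : ℝ) - ε)) := by
      rw [hfib]
      push_cast
      calc ∑ x ∈ range (s 0), ((G x).card : ℝ)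
          < ∑ x ∈ range (s 0), c' * (n : ℝ) ^ ((r : ℝ) - ε) :=
            Finset.sum_lt_sum_of_nonempty ⟨0, mem_range.2 h0⟩ hno
        _ = (s 0 : ℝ) * (c' * (n : ℝ) ^ ((r : ℝ) - ε)) := by
            rw [Finset.sum_const, card_range, nsmul_eq_mul]
    have h2 : (s 0 : ℝ) ≤ L * n := by exact_mod_cast (hs 0).2
    have h3 : (n : ℝ) ^ (((r + 1 : ℕ) : ℝ) - ε) = n * (n : ℝ) ^ ((r : ℝ) - ε) := by
      rw [show ((r + 1 : ℕ) : ℝ) - ε = 1 + ((r : ℝ) - ε) by push_cast; ring,
        Real.rpow_add hn0, Real.rpow_one]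
    rw [h3] at hcard
    have h4 : (0 : ℝ) < (n : ℝ) ^ ((r : ℝ) - ε) := Real.rpow_pos_of_pos hn0 _
    have h5 : (s 0 : ℝ) * (c' * (n : ℝ) ^ ((r : ℝ) - ε))
        ≤ (L * n) * (c' * (n : ℝ) ^ ((r : ℝ) - ε)) := by gcongr
    have h6 : (0 : ℝ) < n * (c' * (n : ℝ) ^ ((r : ℝ) - ε)) := by positivity
    nlinarith
  obtain ⟨x, hx, hxc⟩ := hex
  have htl : ((G x).image Fin.tail).card = (G x).card := by
    apply Finset.card_image_of_injOn
    intro f hf g hg hfg
    have h1 : f 0 = x := (mem_filter.1 hf).2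
    have h2 : g 0 = x := (mem_filter.1 hg).2
    rw [← Fin.cons_self_tail f, ← Fin.cons_self_tail g, h1, h2]
    exact congrArg _ hfg
  obtain ⟨A, hA, hAE⟩ := H n hn (fun j => s j.succ) (fun j => hs j.succ)
    ((G x).image Fin.tail) (by
      intro f hf j
      obtain ⟨g, hg, rfl⟩ := mem_image.1 hf
      exact hE g (mem_filter.1 hg).1 j.succ) (by rw [htl]; exact hxc)
  refine ⟨Fin.cons {x} A, ?_, ?_⟩
  · intro j
    refine Fin.cases ?_ (fun j => ?_) j
    · simp
    · simpa using hA j
  · intro f hf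
    have h0 : f 0 = x := by simpa using hf 0
    have h1 : Fin.tail f ∈ (G x).image Fin.tail := by
      apply hAE
      intro j
      have := hf j.succ
      rw [Fin.cons_succ] at this
      exact this
    obtain ⟨g, hg, hgf⟩ := mem_image.1 h1
    obtain ⟨hg1, hg2⟩ := mem_filter.1 hg
    have : g = f := by
      rw [← Fin.cons_self_tail f, ← Fin.cons_self_tail g, hgf, hg2, h0]
    rwa [← this]

theorem scale_all {r : ℕ} {b q : Fin r → ℕ} {ε : ℝ} (hb : ∀ j, 1 ≤ b j) (hq : ∀ j, 1 ≤ q j)
    (hε0 : 0 ≤ ε) (hε1 : ε ≤ 1) (h : GoodR b ε) :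
    GoodR (fun j => q j * b j) (ε / ∏ j, (q j : ℝ)) := by
  classical
  have key : ∀ T : Finset (Fin r),
      GoodR (fun j => if j ∈ T then q j * b j else b j) (ε / ∏ j ∈ T, (q j : ℝ)) := by
    intro T
    induction T using Finset.induction_on with
    | empty => simpa using h
    | insert i T hi ih =>
      have hqi : (1 : ℝ) ≤ q i := by exact_mod_cast hq i
      have hT : (1 : ℝ) ≤ ∏ j ∈ T, (q j : ℝ) := by
        calc (1 : ℝ) = ∏ j ∈ T, (1 : ℝ) := by simp
          _ ≤ _ := Finset.prod_le_prod (fun _ _ => zero_le_one)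
            (fun j _ => by exact_mod_cast hq j)
      have hT0 : (0 : ℝ) < ∏ j ∈ T, (q j : ℝ) := by linarith
      have hqi0 : (0 : ℝ) < q i := by linarith
      have h1 := scale (ε := ε / ∏ j ∈ insert i T, (q j : ℝ))
        (b := fun j => if j ∈ T then q j * b j else b j) (fun j => by
          split_ifs
          · exact Nat.mul_pos (hq j) (hb j)
          · exact hb j) i (hq i) (by
            rw [Finset.prod_insert hi]; positivity) (by
            rw [Finset.prod_insert hi, div_le_one (by positivity)]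
            nlinarith) (by
            rw [Finset.prod_insert hi]
            apply le_of_eq
            field_simp) ih
      have h2 : Function.update (fun j => if j ∈ T then q j * b j else b j) i
          (q i * (fun j => if j ∈ T then q j * b j else b j) i)
          = fun j => if j ∈ insert i T then q j * b j else b j := by
        funext j
        rcases eq_or_ne j i with rfl | hj
        · rw [Function.update_self]; simp [hi]
        · rw [Function.update_of_ne hj]; simp [hj]
      rw [h2] at h1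
      exact h1
  have := key univ
  simpa using this

end Pool.Agent.Lib.MPffb1b1
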