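import Pool.Agent.Lib.MP_ffb1b1_co.Graph

/-!
# The scaled exponent `k^r ε*_{k,r}` is monotone
-/

namespace Pool.Agent.Lib.MPffb1b1

open Finset

theorem goodR_le_one {r : ℕ} {b : Fin r → ℕ} {ε : ℝ} (hb : ∀ j, 1 ≤ b j) (i : Fin r)
    (hbi : 2 ≤ b i) (h : GoodR b ε) : ε ≤ 1 := by
  classical
  by_contra hε
  push Not at hε
  obtain ⟨c, hc, H⟩ := h 1
  obtain ⟨n, hn, hcn⟩ : ∃ n : ℕ, 1 ≤ n ∧ c ≤ (n : ℝ) ^ (ε - 1) := by
    have h1 := (tendsto_rpow_atTop (sub_pos.2 hε)).comp tendsto_natCast_atTop_atTop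
    have h2 := (h1.eventually_ge_atTop c).and (Filter.eventually_ge_atTop 1)
    obtain ⟨n, hn⟩ := h2.exists
    exact ⟨n, hn.2, hn.1⟩
  have hn0 : (0 : ℝ) < n := by
    have : 0 < n := by omega
    exact_mod_cast this
  have hr : 1 ≤ r := by have := i.2; omega
  set E : Finset (Fin r → ℕ) :=
    Fintype.piFinset (Function.update (fun _ => range n) i {0}) with hE
  have hEi : ∀ f ∈ E, f i = 0 := by
    intro f hf
    have := Fintype.mem_piFinset.1 hf i
    rw [Function.update_self] at this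
    exact mem_singleton.1 this
  have hEcard : E.card = n ^ (r - 1) := by
    rw [hE, Fintype.card_piFinset, ← Finset.mul_prod_erase univ _ (mem_univ i),
      Function.update_self, card_singleton, one_mul]
    rw [Finset.prod_congr rfl (g := fun _ => n) (fun j hj => by
      rw [Function.update_of_ne (ne_of_mem_erase hj), card_range])]
    rw [Finset.prod_const, card_erase_of_mem (mem_univ i), Finset.card_univ, Fintype.card_fin]
  obtain ⟨A, hA, hAE⟩ := H n hn (fun _ => n) (fun j => ⟨le_rfl, by omega⟩) E (by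
    intro f hf j
    rcases eq_or_ne j i with rfl | hj
    · show f j < n
      rw [hEi f hf]; omega
    · have := Fintype.mem_piFinset.1 hf j
      rw [Function.update_of_ne hj] at this
      exact mem_range.1 this) (by
    rw [hEcard]
    push_cast
    have h1 : (n : ℝ) ^ (r - 1) = (n : ℝ) ^ (ε - 1) * (n : ℝ) ^ ((r : ℝ) - ε) := by
      rw [← Real.rpow_add hn0, ← Real.rpow_natCast]
      congr 1
      rw [Nat.cast_sub hr]
      push_cast
      ring
    rw [h1]
    have h2 : (0 : ℝ) < (n : ℝ) ^ ((r : ℝ) - ε) := Real.rpow_pos_of_pos hn0 _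
    gcongr)
  have hne : ∀ j, (A j).Nonempty := fun j => by
    rw [← Finset.card_pos, hA j]; exact hb j
  choose z hz using hne
  have hsub : A i ⊆ {0} := by
    intro u hu
    have h1 : Function.update z i u ∈ E := by
      apply hAE
      intro j
      rcases eq_or_ne j i with rfl | hj
      · rw [Function.update_self]; exact hu
      · rw [Function.update_of_ne hj]; exact hz j
    have h2 := hEi _ h1
    rw [Function.update_self] at h2
    exact mem_singleton.2 h2
  have h3 := Finset.card_le_card hsub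
  rw [hA i, card_singleton] at h3
  omega

theorem forces_le_one {k r : ℕ} {ε : ℝ} (hk : 2 ≤ k) (hr : 1 ≤ r) (h : Forces k r ε) :
    ε ≤ 1 :=
  goodR_le_one (fun _ => by omega) ⟨0, hr⟩ hk (goodR_of_forces (by omega) hr h)

theorem bddAbove_forces {k r : ℕ} (hk : 2 ≤ k) (hr : 1 ≤ r) :
    BddAbove {ε : ℝ | 0 < ε ∧ Forces k r ε} :=
  ⟨1, fun _ hε => forces_le_one hk hr hε.2⟩

theorem forces_one (k : ℕ) (hk : 1 ≤ k) : Forces k 1 1 := by
  classical
  apply forces_of_goodR hk
  intro L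
  refine ⟨k, by exact_mod_cast hk, ?_⟩
  intro n hn s hs E hE hcard
  have h1 : k ≤ E.card := by
    have h2 : (k : ℝ) * (n : ℝ) ^ (((1 : ℕ) : ℝ) - 1) = k := by simp
    rw [h2] at hcard
    exact_mod_cast hcard
  have hinj : Function.Injective (fun f : Fin 1 → ℕ => f 0) := by
    intro f g hfg
    funext j
    rw [Subsingleton.elim j 0]
    exact hfg
  rw [← Finset.card_image_of_injective E hinj] at h1
  obtain ⟨A, hA, hAc⟩ := Finset.exists_subset_card_eq h1
  refine ⟨fun _ => A, fun _ => hAc, ?_⟩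
  intro f hf
  obtain ⟨g, hg, hgf⟩ := mem_image.1 (hA (hf 0))
  have : g = f := hinj hgf
  rwa [← this]

theorem forces_scale {k m r t : ℕ} {ε : ℝ} (hk : 2 ≤ k) (hm : 1 ≤ m) (hr : 1 ≤ r)
    (hε0 : 0 < ε) (h : Forces k r ε) :
    Forces (k * m) (r + t) (ε / ((m : ℝ) ^ r * ((k : ℝ) * m) ^ t)) := by
  have hε1 := forces_le_one hk hr h
  have hmR : (1 : ℝ) ≤ m := by exact_mod_cast hm
  have key : ∀ t : ℕ, ∃ b q : Fin (r + t) → ℕ, (∀ j, 1 ≤ b j) ∧ (∀ j, 1 ≤ q j) ∧
      (∀ j, q j * b j = k * m) ∧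
      (∏ j, (q j : ℝ)) = (m : ℝ) ^ r * ((k : ℝ) * m) ^ t ∧ GoodR b ε := by
    intro t
    induction t with
    | zero =>
      refine ⟨fun _ => k, fun _ => m, fun _ => show 1 ≤ k by omega, fun _ => hm, fun _ => mul_comm _ _,
        ?_, goodR_of_forces (by omega) hr h⟩
      simp
    | succ t ih =>
      obtain ⟨b, q, hb, hq, hqb, hprod, hg⟩ := ih
      refine ⟨(Fin.cons 1 b : Fin (r + t + 1) → ℕ), (Fin.cons (k * m) q : Fin (r + t + 1) → ℕ),
        ?_, ?_, ?_, ?_, lift hg⟩
      · intro j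
        refine Fin.cases ?_ (fun j => ?_) j
        · simp
        · simpa using hb j
      · intro j
        refine Fin.cases ?_ (fun j => ?_) j
        · rw [Fin.cons_zero]; exact Nat.mul_pos (by omega) hm
        · simpa using hq j
      · intro j
        refine Fin.cases ?_ (fun j => ?_) j
        · rw [Fin.cons_zero, Fin.cons_zero, mul_one]
        · simpa using hqb j
      · show (∏ j : Fin (r + t + 1), (((Fin.cons (k * m) q : Fin (r + t + 1) → ℕ) j : ℕ) : ℝ)) = _
        rw [Fin.prod_univ_succ]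
        simp only [Fin.cons_zero, Fin.cons_succ]
        rw [hprod, pow_succ]
        push_cast
        ring
  obtain ⟨b, q, hb, hq, hqb, hprod, hg⟩ := key t
  have h1 := scale_all hb hq hε0.le hε1 hg
  rw [hprod] at h1
  have h2 : (fun j => q j * b j) = fun _ : Fin (r + t) => k * m := funext hqb
  rw [h2] at h1
  exact forces_of_goodR (Nat.mul_pos (by omega) hm) h1

theorem lambda_mono {k m r s : ℕ} (hk : 2 ≤ k) (hm : 1 ≤ m) (hr : 1 ≤ r) (hrs : r ≤ s) :
    (k : ℝ) ^ r * epsStar k r ≤ ((k * m : ℕ) : ℝ) ^ s * epsStar (k * m) s := by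
  obtain ⟨t, rfl⟩ : ∃ t, s = r + t := ⟨s - r, by omega⟩
  have hkR : (0 : ℝ) < k := by
    have : 0 < k := by omega
    exact_mod_cast this
  have hmR : (0 : ℝ) < m := by exact_mod_cast hm
  have hkm : 2 ≤ k * m := le_trans hk (Nat.le_mul_of_pos_right k hm)
  have hnn : 0 ≤ epsStar (k * m) (r + t) := Real.sSup_nonneg (fun x hx => hx.1.le)
  have hle : epsStar k r ≤ ((m : ℝ) ^ r * ((k : ℝ) * m) ^ t) * epsStar (k * m) (r + t) := by
    apply Real.sSup_le
    · intro ε hε
      have h1 := forces_scale (t := t) hk hm hr hε.1 hε.2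
      have h2 : ε / ((m : ℝ) ^ r * ((k : ℝ) * m) ^ t) ≤ epsStar (k * m) (r + t) :=
        le_csSup (bddAbove_forces hkm (by omega)) ⟨by have := hε.1; positivity, h1⟩
      rw [div_le_iff₀ (by positivity)] at h2
      linarith
    · positivity
  calc (k : ℝ) ^ r * epsStar k r
      ≤ (k : ℝ) ^ r * (((m : ℝ) ^ r * ((k : ℝ) * m) ^ t) * epsStar (k * m) (r + t)) := by gcongr
    _ = ((k * m : ℕ) : ℝ) ^ (r + t) * epsStar (k * m) (r + t) := by
        push_cast
        rw [pow_add, mul_pow]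
        ring

theorem epsStar_one {k : ℕ} (hk : 2 ≤ k) : epsStar k 1 = 1 := by
  apply le_antisymm
  · exact Real.sSup_le (fun ε hε => forces_le_one hk le_rfl hε.2) zero_le_one
  · exact le_csSup (bddAbove_forces hk le_rfl) ⟨one_pos, forces_one k (by omega)⟩

end Pool.Agent.Lib.MPffb1b1
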