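import Pool.Agent.Lib.MP_ffb1b1_co.Scaling

/-!
# The scaling theorem for product hypergraphs
-/

namespace Pool.Agent.Lib.MPffb1b1

open Finset

lemma box_of_blocks {r : ℕ} (i : Fin r) {s b : Fin r → ℕ} (hb : ∀ j, 1 ≤ b j)
    {E E' : Finset (Fin r → ℕ)} {N m : ℕ} (τ : ℕ → ℕ → ℕ)
    (hinj : ∀ u < N, ∀ y < m, ∀ u' < N, ∀ y' < m, τ u y = τ u' y' → u = u' ∧ y = y')
    (hBd : Bd (Function.update s i N) E')
    (hE' : ∀ f ∈ E', ∀ y < m, Function.update f i (τ (f i) y) ∈ E) (hbox : HasBox E' b) :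
    HasBox E (Function.update b i (m * b i)) := by
  classical
  obtain ⟨A, hA, hAE⟩ := hbox
  have hne : ∀ j, (A j).Nonempty := fun j => by
    rw [← Finset.card_pos, hA j]; exact hb j
  choose z hz using hne
  have hlt : ∀ u ∈ A i, u < N := by
    intro u hu
    have h1 : Function.update z i u ∈ E' := by
      apply hAE
      intro j
      rcases eq_or_ne j i with rfl | hj
      · rw [Function.update_self]; exact hu
      · rw [Function.update_of_ne hj]; exact hz j
    have h2 := hBd _ h1 i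
    rwa [Function.update_self, Function.update_self] at h2
  refine ⟨Function.update A i ((A i ×ˢ range m).image (fun q => τ q.1 q.2)), ?_, ?_⟩
  · intro j
    rcases eq_or_ne j i with rfl | hj
    · rw [Function.update_self, Function.update_self, Finset.card_image_of_injOn,
        Finset.card_product, hA j, card_range, mul_comm]
      intro q hq q' hq' h
      obtain ⟨h1, h2⟩ := mem_product.1 hq
      obtain ⟨h1', h2'⟩ := mem_product.1 hq'
      obtain ⟨h3, h4⟩ := hinj q.1 (hlt _ h1) q.2 (mem_range.1 h2) q'.1 (hlt _ h1') q'.2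
        (mem_range.1 h2') h
      exact Prod.ext h3 h4
    · rw [Function.update_of_ne hj, Function.update_of_ne hj]
      exact hA j
  · intro f hf
    have hi := hf i
    rw [Function.update_self] at hi
    obtain ⟨q, hq, hq2⟩ := mem_image.1 hi
    obtain ⟨h1, h2⟩ := mem_product.1 hq
    have hg : Function.update f i q.1 ∈ E' := by
      apply hAE
      intro j
      rcases eq_or_ne j i with rfl | hj
      · rw [Function.update_self]; exact h1
      · rw [Function.update_of_ne hj]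
        have := hf j
        rwa [Function.update_of_ne hj] at this
    have h3 := hE' _ hg q.2 (mem_range.1 h2)
    rw [Function.update_self, Function.update_idem, hq2, Function.update_eq_self] at h3
    exact h3

theorem scale {r : ℕ} {b : Fin r → ℕ} {ε' ε : ℝ} (hb : ∀ j, 1 ≤ b j) (i : Fin r) {m : ℕ}
    (hm : 1 ≤ m) (hε0 : 0 ≤ ε) (hε1 : ε ≤ 1) (hε : m * ε ≤ ε') (h : GoodR b ε') :
    GoodR (Function.update b i (m * b i)) ε := by
  classical
  intro L
  obtain ⟨c', hc', H⟩ := h (2 * m * L)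
  rcases Nat.eq_zero_or_pos L with rfl | hL
  · refine ⟨1, one_pos, fun n hn s hs => ?_⟩
    have := hs i
    omega
  have hmR : (1 : ℝ) ≤ m := by exact_mod_cast hm
  have hLR : (1 : ℝ) ≤ L := by exact_mod_cast hL
  have hε'0 : 0 ≤ ε' := le_trans (by positivity) hε
  set x : ℝ := m + 1 + c' * (2 * (m : ℝ)) ^ ε' with hx
  have hxp : 0 ≤ c' * (2 * (m : ℝ)) ^ ε' := by positivity
  have hx1 : 1 ≤ x := by linarith
  have hxm : (m : ℝ) ≤ x := by linarith
  have hx0 : 0 < x := by linarith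
  refine ⟨2 * (L : ℝ) ^ r * x, by positivity, ?_⟩
  intro n hn s hs E hE hcard
  have hnR : (1 : ℝ) ≤ n := by exact_mod_cast hn
  have hn0 : (0 : ℝ) < n := by linarith
  have hr : 1 ≤ r := by
    have := i.2
    omega
  set P : ℕ := ∏ j ∈ univ.erase i, s j with hP
  have hcardE : (univ.erase i : Finset (Fin r)).card = r - 1 := by
    rw [card_erase_of_mem (mem_univ i), Finset.card_univ, Fintype.card_fin]
  have hP1 : n ^ (r - 1) ≤ P := by
    rw [← hcardE]
    exact pow_card_le_prod _ _ _ (fun j _ => (hs j).1)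
  have hP2 : P ≤ (L * n) ^ (r - 1) := by
    rw [← hcardE]
    exact prod_le_pow_card _ _ _ (fun j _ => (hs j).2)
  have hsi := hs i
  have hsiR : (n : ℝ) ≤ s i := by exact_mod_cast hsi.1
  have hsi0 : (0 : ℝ) < s i := by linarith
  have hPR0 : (0 : ℝ) < P := by
    have : (n : ℝ) ^ (r - 1) ≤ P := by exact_mod_cast hP1
    have h2 : (0 : ℝ) < (n : ℝ) ^ (r - 1) := by positivity
    linarith
  have hprod : s i * P = ∏ j, s j := Finset.mul_prod_erase univ _ (mem_univ i)
  set p : ℝ := E.card / (s i * P) with hpdef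
  have hpE : p * s i * P = E.card := by
    rw [hpdef]; field_simp
  have hEle : (E.card : ℝ) ≤ s i * P := by
    have := card_le_prod hE
    rw [← hprod] at this
    exact_mod_cast this
  have hp1 : p ≤ 1 := by
    rw [hpdef, div_le_one (by positivity)]; exact hEle
  have hsP : (s i : ℝ) * P ≤ (L : ℝ) ^ r * (n : ℝ) ^ r := by
    have h1 : s i * P ≤ (L * n) * (L * n) ^ (r - 1) := Nat.mul_le_mul hsi.2 hP2
    have h2 : (L * n) * (L * n) ^ (r - 1) = (L * n) ^ r := by
      rw [← pow_succ']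
      congr 1
      omega
    rw [h2, mul_pow] at h1
    exact_mod_cast h1
  have hnr : (n : ℝ) ^ ((r : ℝ) - ε) = (n : ℝ) ^ r * (n : ℝ) ^ (-ε) := by
    rw [← Real.rpow_natCast (n : ℝ) r, ← Real.rpow_add hn0]
    congr 1
  have hLr : (0 : ℝ) < (L : ℝ) ^ r := by positivity
  have hnr0 : (0 : ℝ) < (n : ℝ) ^ r := by positivity
  have hne0 : (0 : ℝ) < (n : ℝ) ^ (-ε) := Real.rpow_pos_of_pos hn0 _
  have hp2x : 2 * x * (n : ℝ) ^ (-ε) ≤ p := by
    rw [hpdef, le_div_iff₀ (by positivity)]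
    calc 2 * x * (n : ℝ) ^ (-ε) * (s i * P)
        ≤ 2 * x * (n : ℝ) ^ (-ε) * ((L : ℝ) ^ r * (n : ℝ) ^ r) := by gcongr
      _ = 2 * (L : ℝ) ^ r * x * ((n : ℝ) ^ r * (n : ℝ) ^ (-ε)) := by ring
      _ = 2 * (L : ℝ) ^ r * x * (n : ℝ) ^ ((r : ℝ) - ε) := by rw [hnr]
      _ ≤ E.card := hcard
  have hp0 : 0 < p := lt_of_lt_of_le (by positivity) hp2x
  have hn1e : 1 ≤ (n : ℝ) ^ (1 - ε) := Real.one_le_rpow hnR (by linarith)
  have hnn : (n : ℝ) ^ (-ε) * n = (n : ℝ) ^ (1 - ε) := by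
    rw [← Real.rpow_add_one hn0.ne']
    congr 1; ring
  have hpsi : 2 * (m : ℝ) ≤ p * s i := by
    calc 2 * (m : ℝ) ≤ 2 * x * 1 := by linarith
      _ ≤ 2 * x * (n : ℝ) ^ (1 - ε) := by gcongr
      _ = (2 * x * (n : ℝ) ^ (-ε)) * n := by rw [← hnn]; ring
      _ ≤ p * s i := by gcongr
  have hn2m : 2 * (m : ℝ) ≤ n := by
    calc 2 * (m : ℝ) ≤ 2 * x * (n : ℝ) ^ (1 - ε) := by
          calc 2 * (m : ℝ) ≤ 2 * x * 1 := by linarith
            _ ≤ 2 * x * (n : ℝ) ^ (1 - ε) := by gcongr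
      _ = (2 * x * (n : ℝ) ^ (-ε)) * n := by rw [← hnn]; ring
      _ ≤ 1 * n := by
          apply mul_le_mul_of_nonneg_right _ hn0.le
          linarith
      _ = n := one_mul _
  have hn2mN : 2 * m ≤ n := by exact_mod_cast hn2m
  set N : ℕ := s i / m with hN
  set n' : ℕ := n / m with hn'
  have hn'1 : 1 ≤ n' := (Nat.one_le_div_iff (by omega)).2 (by omega)
  have hnn' : n ≤ 2 * m * n' := by
    have h1 := Nat.div_add_mod n m
    have h2 := Nat.mod_lt n (show 0 < m by omega)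
    have h3 : m ≤ m * n' := Nat.le_mul_of_pos_right m (by omega)
    rw [← hn'] at h1
    nlinarith
  have hn'n : n' ≤ n := Nat.div_le_self _ _
  have hNn' : n' ≤ N := Nat.div_le_div_right hsi.1
  have hNs : N ≤ s i := Nat.div_le_self _ _
  obtain ⟨τ, E', hinj, hBd, hE', hc⟩ := slice_block i s E hE hm (N := N)
    (Nat.div_mul_le_self _ _) (by omega) p hpE.le hpsi
  have hLn : L * n ≤ 2 * m * L * n' := by
    calc L * n ≤ L * (2 * m * n') := Nat.mul_le_mul_left _ hnn'
      _ = 2 * m * L * n' := by ring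
  have hs' : ∀ j, n' ≤ Function.update s i N j ∧ Function.update s i N j ≤ 2 * m * L * n' := by
    intro j
    rcases eq_or_ne j i with rfl | hj
    · rw [Function.update_self]
      exact ⟨hNn', hNs.trans (hsi.2.trans hLn)⟩
    · rw [Function.update_of_ne hj]
      exact ⟨hn'n.trans (hs j).1, (hs j).2.trans hLn⟩
  have hn'R : (0 : ℝ) < n' := by
    have : 0 < n' := by omega
    exact_mod_cast this
  have hfin : c' * (n' : ℝ) ^ ((r : ℝ) - ε') ≤ E'.card := by
    refine le_trans ?_ hc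
    have h1 : (n' : ℝ) * (n' : ℝ) ^ (r - 1) ≤ (N : ℝ) * P := by
      have h2 : n' * n' ^ (r - 1) ≤ N * P :=
        Nat.mul_le_mul hNn' ((Nat.pow_le_pow_left hn'n _).trans hP1)
      exact_mod_cast h2
    have h3 : (n' : ℝ) * (n' : ℝ) ^ (r - 1) = (n' : ℝ) ^ r := by
      rw [← pow_succ']
      congr 1
      omega
    rw [h3] at h1
    have h4 : x * (n : ℝ) ^ (-ε) ≤ p / 2 := by linarith
    have h5 : (x * (n : ℝ) ^ (-ε)) ^ m ≤ (p / 2) ^ m :=
      pow_le_pow_left₀ (by positivity) h4 m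
    have h6 : x * (n : ℝ) ^ (-ε') ≤ (x * (n : ℝ) ^ (-ε)) ^ m := by
      rw [mul_pow]
      have h7 : x ≤ x ^ m := le_self_pow₀ hx1 (by omega)
      have h8 : (n : ℝ) ^ (-ε') ≤ ((n : ℝ) ^ (-ε)) ^ m := by
        rw [← Real.rpow_natCast, ← Real.rpow_mul hn0.le]
        apply Real.rpow_le_rpow_of_exponent_le hnR
        linarith
      exact mul_le_mul h7 h8 (by positivity) (by positivity)
    have h9 : (2 * (m : ℝ)) ^ (-ε') * (n' : ℝ) ^ (-ε') ≤ (n : ℝ) ^ (-ε') := by
      rw [← Real.mul_rpow (by positivity) hn'R.le]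
      apply Real.rpow_le_rpow_of_nonpos hn0 _ (by linarith)
      exact_mod_cast hnn'
    have h10 : c' ≤ x * (2 * (m : ℝ)) ^ (-ε') := by
      have h11 : c' * (2 * (m : ℝ)) ^ ε' ≤ x := by linarith
      have h12 : (0 : ℝ) < (2 * (m : ℝ)) ^ (-ε') := by positivity
      calc c' = c' * (2 * (m : ℝ)) ^ ε' * (2 * (m : ℝ)) ^ (-ε') := by
            rw [mul_assoc, ← Real.rpow_add (by positivity)]
            simp
        _ ≤ x * (2 * (m : ℝ)) ^ (-ε') := by gcongr
    calc c' * (n' : ℝ) ^ ((r : ℝ) - ε') = c' * ((n' : ℝ) ^ r * (n' : ℝ) ^ (-ε')) := by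
          rw [← Real.rpow_natCast (n' : ℝ) r, ← Real.rpow_add hn'R]
          congr 2
      _ ≤ (x * (2 * (m : ℝ)) ^ (-ε')) * ((n' : ℝ) ^ r * (n' : ℝ) ^ (-ε')) := by gcongr
      _ = (n' : ℝ) ^ r * (x * ((2 * (m : ℝ)) ^ (-ε') * (n' : ℝ) ^ (-ε'))) := by ring
      _ ≤ (n' : ℝ) ^ r * (x * (n : ℝ) ^ (-ε')) := by gcongr
      _ ≤ ((N : ℝ) * P) * (p / 2) ^ m := by
          apply mul_le_mul h1 (h6.trans h5) (by positivity) (by positivity)
  have hbox := H n' hn'1 _ hs' E' hBd hfin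
  exact box_of_blocks i hb τ hinj hBd hE' hbox

end Pool.Agent.Lib.MPffb1b1
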