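import Pool.Agent.Lib.MP_ffb1b1_co.Block

/-!
# Scaling one side of a box costs at most the factor

`GoodR a ε`: every set `E` of points of a box of sizes `s` with `n ≤ s j ≤ L n` and at least
`c n^(r-ε)` elements contains a combinatorial box with sides `a`. `scale`: from `b` and
`ε'` one gets the sides with `b i` replaced by `m b i` and the exponent `ε' / m`.
-/

namespace Pool.Agent.Lib.MPffb1b1

open Finset

/-- `E` contains a box with sides `a`. -/
def HasBox {r : ℕ} (E : Finset (Fin r → ℕ)) (a : Fin r → ℕ) : Prop :=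
  ∃ A : Fin r → Finset ℕ, (∀ i, (A i).card = a i) ∧
    ∀ f : Fin r → ℕ, (∀ i, f i ∈ A i) → f ∈ E

/-- `E` lies in the box of sizes `s`. -/
def Bd {r : ℕ} (s : Fin r → ℕ) (E : Finset (Fin r → ℕ)) : Prop := ∀ f ∈ E, ∀ j, f j < s j

/-- Boxes with sides `a` are forced with exponent `ε`. -/
def GoodR {r : ℕ} (a : Fin r → ℕ) (ε : ℝ) : Prop :=
  ∀ L : ℕ, ∃ c : ℝ, 0 < c ∧ ∀ n : ℕ, 1 ≤ n → ∀ s : Fin r → ℕ,
    (∀ j, n ≤ s j ∧ s j ≤ L * n) → ∀ E : Finset (Fin r → ℕ), Bd s E →
    c * (n : ℝ) ^ ((r : ℝ) - ε) ≤ E.card → HasBox E a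

lemma card_le_prod {r : ℕ} {s : Fin r → ℕ} {E : Finset (Fin r → ℕ)} (hE : Bd s E) :
    E.card ≤ ∏ j, s j := by
  have h1 : E ⊆ Fintype.piFinset (fun j => range (s j)) := by
    intro f hf
    rw [Fintype.mem_piFinset]
    intro j
    exact mem_range.2 (hE f hf j)
  refine (Finset.card_le_card h1).trans ?_
  rw [Fintype.card_piFinset]
  simp

lemma slice_block {r : ℕ} (i : Fin r) (s : Fin r → ℕ) (E : Finset (Fin r → ℕ)) (hE : Bd s E)
    {m N : ℕ} (hm : 1 ≤ m) (hN : N * m ≤ s i) (hsi : 1 ≤ s i) (p : ℝ)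
    (hp : p * s i * (∏ j ∈ univ.erase i, s j : ℕ) ≤ E.card) (hp2 : 2 * (m : ℝ) ≤ p * s i) :
    ∃ (τ : ℕ → ℕ → ℕ) (E' : Finset (Fin r → ℕ)),
      (∀ u < N, ∀ y < m, ∀ u' < N, ∀ y' < m, τ u y = τ u' y' → u = u' ∧ y = y') ∧
      Bd (Function.update s i N) E' ∧
      (∀ f ∈ E', ∀ y < m, Function.update f i (τ (f i) y) ∈ E) ∧
      (N : ℝ) * (∏ j ∈ univ.erase i, s j : ℕ) * (p / 2) ^ m ≤ E'.card := by
  classical
  set W : Finset (Fin r → ℕ) :=
    Fintype.piFinset (Function.update (fun j => range (s j)) i {0}) with hW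
  have hWi : ∀ w ∈ W, w i = 0 := by
    intro w hw
    have := Fintype.mem_piFinset.1 hw i
    rw [Function.update_self] at this
    exact mem_singleton.1 this
  have hWj : ∀ w ∈ W, ∀ j, j ≠ i → w j < s j := by
    intro w hw j hj
    have := Fintype.mem_piFinset.1 hw j
    rw [Function.update_of_ne hj] at this
    exact mem_range.1 this
  have hWcard : W.card = ∏ j ∈ univ.erase i, s j := by
    rw [hW, Fintype.card_piFinset, ← Finset.mul_prod_erase univ _ (mem_univ i)]
    rw [Function.update_self, card_singleton, one_mul]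
    refine Finset.prod_congr rfl (fun j hj => ?_)
    rw [Function.update_of_ne (ne_of_mem_erase hj), card_range]
  let F : W → Finset (Fin (s i)) := fun w =>
    univ.filter (fun v => Function.update w.1 i (v : ℕ) ∈ E)
  have hsum : E.card ≤ ∑ w, (F w).card := by
    have h1 : E ⊆ (univ.filter (fun q : W × Fin (s i) => q.2 ∈ F q.1)).image
        (fun q => Function.update q.1.1 i (q.2 : ℕ)) := by
      intro f hf
      have hw : Function.update f i 0 ∈ W := by
        rw [hW, Fintype.mem_piFinset]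
        intro j
        rcases eq_or_ne j i with rfl | hj
        · simp
        · rw [Function.update_of_ne hj, Function.update_of_ne hj]
          exact mem_range.2 (hE f hf j)
      have hff : Function.update (Function.update f i 0) i (f i) = f := by
        rw [Function.update_idem, Function.update_eq_self]
      refine mem_image.2 ⟨(⟨_, hw⟩, ⟨f i, hE f hf i⟩), ?_, hff⟩
      rw [mem_filter]
      refine ⟨mem_univ _, ?_⟩
      simp only [F, mem_filter, mem_univ, true_and]
      rw [hff]
      exact hf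
    refine (Finset.card_le_card h1).trans (Finset.card_image_le.trans ?_)
    rw [Finset.card_filter, Fintype.sum_prod_type]
    refine Finset.sum_le_sum (fun w _ => ?_)
    rw [← Finset.card_filter]
    exact Finset.card_le_card (fun v hv => (mem_filter.1 hv).2)
  have hF : p * s i * Fintype.card W ≤ ∑ w, ((F w).card : ℝ) := by
    rw [Fintype.card_coe, hWcard]
    refine hp.trans ?_
    exact_mod_cast hsum
  obtain ⟨τ', hinj, hτ⟩ := block hm hsi hN F p hF hp2
  set Q := univ.filter (fun q : W × Fin N => ∀ y, τ' q.2 y ∈ F q.1) with hQ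
  refine ⟨fun u y => if h : u < N ∧ y < m then (τ' ⟨u, h.1⟩ ⟨y, h.2⟩ : ℕ) else 0,
    Q.image (fun q => Function.update q.1.1 i (q.2 : ℕ)), ?_, ?_, ?_, ?_⟩
  · intro u hu y hy u' hu' y' hy' h
    simp only [hu, hy, hu', hy', and_self, dif_pos] at h
    have h1 := @hinj (⟨u, hu⟩, ⟨y, hy⟩) (⟨u', hu'⟩, ⟨y', hy'⟩) (Fin.ext h)
    have h2 := Prod.mk.inj h1
    exact ⟨congrArg Fin.val h2.1, congrArg Fin.val h2.2⟩
  · intro f hf j
    obtain ⟨q, hq, rfl⟩ := mem_image.1 hf
    rcases eq_or_ne j i with rfl | hj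
    · rw [Function.update_self, Function.update_self]; exact q.2.2
    · rw [Function.update_of_ne hj, Function.update_of_ne hj]
      exact hWj _ q.1.2 j hj
  · intro f hf y hy
    obtain ⟨q, hq, rfl⟩ := mem_image.1 hf
    rw [Function.update_self, Function.update_idem]
    simp only [q.2.2, hy, and_self, dif_pos]
    have h1 := (mem_filter.1 hq).2 ⟨y, hy⟩
    simp only [F, mem_filter, mem_univ, true_and] at h1
    exact h1
  · rw [Finset.card_image_of_injective]
    · rw [Fintype.card_coe, hWcard] at hτ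
      exact hτ
    · intro q q' h
      have h1 : (q.2 : ℕ) = q'.2 := by
        have := congrFun h i
        simpa using this
      have h2 : q.1.1 = q'.1.1 := by
        funext j
        rcases eq_or_ne j i with rfl | hj
        · rw [hWi _ q.1.2, hWi _ q'.1.2]
        · have := congrFun h j
          simpa [Function.update_of_ne hj] using this
      exact Prod.ext (Subtype.ext h2) (Fin.ext h1)

end Pool.Agent.Lib.MPffb1b1
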